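import Pool.Agent.H74.TQ.Stmts

set_option autoImplicit false

namespace Pool.TQ

open TMLib Polynomial

theorem cex : S_CEX := by
  classical
  intro K hS S pS
  have hR : NPp (fun p : (ℕ × List (List Bool)) × Form =>
      Sat p.2 ∧ ∀ κ ∈ p.1.2, S (κ, p.2) = false) := by
    refine (npp_sat' (f := fun p : (ℕ × List (List Bool)) × Form => p.2) (by fun_prop)).and ?_
    have h1 : PTime (fun p : (ℕ × List (List Bool)) × Form =>
        p.1.2.all fun κ => !(S (κ, p.2))) := by
      refine PTime.all (g := fun (p : (ℕ × List (List Bool)) × Form) κ => !(S (κ, p.2)))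
        (by fun_prop) ?_
      exact PTime.not (pS.comp (f := fun q : ((ℕ × List (List Bool)) × Form) × List Bool =>
        (q.2, q.1.2)) (by fun_prop))
    refine NPp.of_ptime (h1.congr fun p => ?_)
    rw [Bool.eq_iff_iff]
    simp
  obtain ⟨w, hw, h1, h2⟩ := hS K (α := ℕ × List (List Bool)) (β := Form)
    (R := fun x φ => Sat φ ∧ ∀ κ ∈ x.2, S (κ, φ) = false) (q := fun x => x.1) hR (by fun_prop)
  refine ⟨w, hw, fun n Ks φ h => ?_, fun n Ks h φ hφ hs => ?_⟩
  · have := h1 _ _ h
    exact ⟨this.1, this.2.1, this.2.2⟩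
  · have := h2 _ h φ hφ
    simp only [not_and, not_forall] at this
    obtain ⟨κ, hκ, h3⟩ := this hs
    exact ⟨κ, hκ, by simpa using h3⟩

end Pool.TQ
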