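import Pool.Agent.TM.Sim
import Pool.Agent.H74.TQ.StmtsF

set_option autoImplicit false

namespace Pool.TQ

open TMLib Polynomial N68a2faeb N487b59b3 Pool.TwoQueries

theorem dp : S_DP := by
  intro hP hC hN hH hE
  obtain ⟨g, pg, hg⟩ := hH
  obtain ⟨V, pV, hV⟩ := hN
  have hgS : ∀ φ, SAT (g φ) = satb φ := fun φ => by
    rw [Bool.eq_iff_iff, satb_iff, hg φ]
  have hNP : SAT ∈ N68a2faeb.NP := mem_NP pV X (fun x => by rw [hV x, eval_X])
  obtain ⟨f, pf, hf⟩ := cook_levin hNP
  have hfS : ∀ x, satb (f x) = SAT x := fun x => by
    rw [Bool.eq_iff_iff, satb_iff, hf x]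
  -- the language
  let L : DecisionProblem := fun x =>
    satb (TMLib.Fix.fix (parse x) : Form × Form).1 && !satb (TMLib.Fix.fix (parse x) : Form × Form).2
  have hL : L ∈ PSAT2 := by
    refine ⟨fun x => g (TMLib.Fix.fix (parse x) : Form × Form).1,
      fun x => g (TMLib.Fix.fix (parse x) : Form × Form).2, fun a b _ => a && !b,
      isPolyTime_of_ptime ?_, isPolyTime_of_ptime ?_, fun a b => (hP _).2 (PTime.const _),
      fun x => ?_⟩
    · exact pg.comp (f := fun x : List Bool => (TMLib.Fix.fix (parse x) : Form × Form).1)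
        (by fun_prop)
    · exact pg.comp (f := fun x : List Bool => (TMLib.Fix.fix (parse x) : Form × Form).2)
        (by fun_prop)
    · simp only [hgS]
      rfl
  rw [← hE] at hL
  obtain ⟨q, A, hq, hA, h⟩ := hL
  have pq := ptime_of_isPolyTime hq
  have pA : ∀ a, PTime (fun x => A a x) := fun a => (hP _).1 (hA a)
  have pe : PTime (fun p : Form × Form => (enc p).code) :=
    hC.comp (f := fun p : Form × Form => enc p) PTime.enc'
  refine ⟨fun p => f (q (enc p).code), fun s => bif s.2 then A true (enc s.1).code
    else A false (enc s.1).code, pf.comp (pq.comp pe), ?_, fun p => ?_⟩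
  · refine PTime.cond (PTime.snd PTime.id) ?_ ?_
    · exact (pA true).comp (pe.comp (PTime.fst PTime.id))
    · exact (pA false).comp (pe.comp (PTime.fst PTime.id))
  · have h1 := h (enc p).code
    have h2 : L (enc p).code = (satb p.1 && !satb p.2) := by
      simp only [L]
      rw [parse_code, TMLib.Fix.fix_enc]
    rw [h2] at h1
    show (Sat p.1 ∧ ¬ Sat p.2) ↔ (bif satb (f (q (enc p).code)) then A true (enc p).code
      else A false (enc p).code) = true
    rw [← satb_iff, ← satb_false_iff, hfS]
    constructor
    · rintro ⟨h3, h4⟩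
      rw [h3, h4] at h1
      cases hS : SAT (q (enc p).code) with
      | true => rw [hS] at h1; exact h1.symm
      | false => rw [hS] at h1; exact h1.symm
    · intro h3
      have h4 : A (SAT (q (enc p).code)) (enc p).code = true := by
        cases hS : SAT (q (enc p).code) with
        | true => rw [hS] at h3; exact h3
        | false => rw [hS] at h3; exact h3
      rw [h4] at h1
      simpa using h1

end Pool.TQ
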