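import Pool.Agent.TM.BitEnc
import Pool.Agent.H74.TQ.StmtsF

set_option autoImplicit false

namespace Pool.TQ

open TMLib Polynomial N68a2faeb N487b59b3 Pool.TwoQueries

theorem phfp : S_PHFP := by
  intro hP K hE hA L hL
  obtain ⟨k, hk⟩ := hL
  induction k generalizing L with
  | zero => exact FPNP.of_ptime ((hP L).1 hk)
  | succ k ih =>
    obtain ⟨p, L', hL', h⟩ := hk
    have h1 := ih L' hL'
    have h2 : FPNP (fun q : List Bool × List Bool => L' (bitEncode (q.1, q.2))) :=
      K.compp (f := fun q : List Bool × List Bool => bitEncode (q.1, q.2)) h1 (by fun_prop)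
    have h3 : FPNP (fun q : List Bool × List Bool => decide (q.2.length ≤ p.eval q.1.length)) :=
      FPNP.of_ptime (PTime.le (PTime.length (PTime.snd PTime.id))
        (PTime.polyEval p (PTime.length (PTime.fst PTime.id))))
    have hR : FPNP (fun q : List Bool × List Bool =>
        decide (q.2.length ≤ p.eval q.1.length) && !(L' (bitEncode (q.1, q.2)))) :=
      K.pcomp (g := fun r : Bool × Bool => r.1 && !r.2) (by fun_prop) (K.pair h3 h2)
    obtain ⟨g, hg, hg'⟩ := hE K hA hR (q := fun x : List Bool => 1 + 4 * p.eval x.length)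
      (PTime.add (PTime.const 1) (PTime.mul (PTime.const 4)
        (PTime.polyEval p (PTime.length PTime.id))))
    refine hg.congr fun x => ?_
    rw [Bool.eq_iff_iff, hg' x, h x]
    simp only [Bool.and_eq_true, decide_eq_true_eq, Bool.not_eq_true']
    constructor
    · rintro ⟨w, hw, hw'⟩
      exact ⟨w, (sz_bits_le w).trans (by omega), hw, hw'⟩
    · rintro ⟨w, -, hw, hw'⟩
      exact ⟨w, hw, hw'⟩

end Pool.TQ
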